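import Pool.Agent.helper12.PFS.Spec

/-! # Row SKW of project PFS: skew products -/

set_option autoImplicit false

namespace Pool.Agent.PFS

lemma SKW_period {X : Type} [Fintype X] (ρ : X → X) (h : Tr ρ) (x : X) :
    Function.minimalPeriod ρ x = Fintype.card X ∧
      ∀ {V : Type} [AddCommGroup V] (w : X → V), ∑ i ∈ Finset.range (Fintype.card X), w (ρ^[i] x) =
        ∑ y, w y := by
  classical
  obtain ⟨n, hn⟩ := h (ρ x) x
  have hper : x ∈ Function.periodicPts ρ := by
    refine ⟨n + 1, Nat.succ_pos n, ?_⟩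
    change ρ^[n + 1] x = x
    rw [Function.iterate_succ_apply]
    exact hn
  have hpos : 0 < Function.minimalPeriod ρ x := Function.minimalPeriod_pos_of_mem_periodicPts hper
  have hinj : Set.InjOn (fun i => ρ^[i] x) (Finset.range (Function.minimalPeriod ρ x) : Set ℕ) := by
    intro i hi j hj hij
    have hi' : i < Function.minimalPeriod ρ x := by simpa using hi
    have hj' : j < Function.minimalPeriod ρ x := by simpa using hj
    exact (Function.iterate_injOn_Iio_minimalPeriod (f := ρ) (x := x)) hi' hj' hij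
  have himg : (Finset.range (Function.minimalPeriod ρ x)).image (fun i => ρ^[i] x) = Finset.univ := by
    apply Finset.eq_univ_of_forall
    intro y
    obtain ⟨m, hm⟩ := h x y
    refine Finset.mem_image.2 ⟨m % Function.minimalPeriod ρ x, Finset.mem_range.2 (Nat.mod_lt _ hpos), ?_⟩
    rw [Function.iterate_mod_minimalPeriod_eq]
    exact hm
  have hcard : Function.minimalPeriod ρ x = Fintype.card X := by
    rw [← Finset.card_univ, ← himg, Finset.card_image_of_injOn hinj, Finset.card_range]
  refine ⟨hcard, ?_⟩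
  intro V _ w
  rw [← hcard, ← himg, Finset.sum_image hinj]

lemma SKW_iter {X V : Type} [AddCommGroup V] (ρ : X → X) (w : X → V) (x : X) (u : V) (n : ℕ) :
    (fun v : X × V => (ρ v.1, v.2 + w v.1))^[n] (x, u) =
      (ρ^[n] x, u + ∑ i ∈ Finset.range n, w (ρ^[i] x)) := by
  induction n with
  | zero => simp
  | succ n ih =>
    rw [Function.iterate_succ_apply', ih, Finset.sum_range_succ, Function.iterate_succ_apply']
    simp only [add_assoc]

theorem SKW : SKW_stmt := by
  intro X V _ _ ρ w hV hρ hM
  have hper : ∀ (y : X) (u : V), (fun v : X × V => (ρ v.1, v.2 + w v.1))^[Fintype.card X] (y, u) =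
      (y, u + ∑ x, w x) := by
    intro y u
    obtain ⟨h1, h2⟩ := SKW_period ρ hρ y
    rw [SKW_iter, h2 w, ← h1, Function.iterate_minimalPeriod]
  have hmul : ∀ (k : ℕ) (y : X) (u : V),
      (fun v : X × V => (ρ v.1, v.2 + w v.1))^[k * Fintype.card X] (y, u) =
      (y, u + k • ∑ x, w x) := by
    intro k
    induction k with
    | zero => intro y u; simp
    | succ k ih =>
      intro y u
      rw [Nat.succ_mul, Nat.add_comm, Function.iterate_add_apply, ih, hper, succ_nsmul, add_assoc]
  rintro ⟨x, u⟩ ⟨y, v⟩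
  obtain ⟨n, hn⟩ := hρ x y
  have : Fact (Nat.Prime 3) := ⟨Nat.prime_three⟩
  have hmem : v - (u + ∑ i ∈ Finset.range n, w (ρ^[i] x)) ∈ AddSubmonoid.multiples (∑ x, w x) :=
    mem_multiples_of_prime_card hV hM
  obtain ⟨k, hk⟩ := AddSubmonoid.mem_multiples_iff _ _ |>.1 hmem
  refine ⟨k * Fintype.card X + n, ?_⟩
  rw [Function.iterate_add_apply, SKW_iter ρ w x u n, hn, hmul, hk]
  simp

end Pool.Agent.PFS
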